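import Pool.Agent.H340R3.Loop.Final

set_option autoImplicit false

namespace Pool.Agent.Results.MP_829a29_al.NilpotentMltSupernilpotent

universe u

/-- A loop: a binary operation with a two-sided unit and with left and right division. -/
class LoopStr (Q : Type u) extends MulOneClass Q where
  /-- left division, `ldiv a b` is the solution `x` of `a * x = b` -/
  ldiv : Q → Q → Q
  /-- right division, `rdiv b a` is the solution `x` of `x * a = b` -/
  rdiv : Q → Q → Q
  mul_ldiv : ∀ a b : Q, a * ldiv a b = b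
  ldiv_mul : ∀ a b : Q, ldiv a (a * b) = b
  rdiv_mul : ∀ a b : Q, rdiv b a * a = b
  mul_rdiv : ∀ a b : Q, rdiv (b * a) a = b

/-- The multiplication group, generated by all left and right translations. -/
def Mlt (Q : Type u) [LoopStr Q] : Subgroup (Equiv.Perm Q) :=
  Subgroup.closure {s | ∃ a : Q, (∀ x, s x = a * x) ∨ (∀ x, s x = x * a)}

/-- The polynomial operations of arity `n`. -/
inductive IsPoly (Q : Type u) [LoopStr Q] (n : ℕ) : ((Fin n → Q) → Q) → Prop
  | var (i : Fin n) : IsPoly Q n (fun u => u i)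
  | const (q : Q) : IsPoly Q n (fun _ => q)
  | mul (f g : (Fin n → Q) → Q) : IsPoly Q n f → IsPoly Q n g →
      IsPoly Q n (fun u => f u * g u)
  | ldiv (f g : (Fin n → Q) → Q) : IsPoly Q n f → IsPoly Q n g →
      IsPoly Q n (fun u => LoopStr.ldiv (f u) (g u))
  | rdiv (f g : (Fin n → Q) → Q) : IsPoly Q n f → IsPoly Q n g →
      IsPoly Q n (fun u => LoopStr.rdiv (f u) (g u))

/-- An operation is absorbing if it takes the value `1` as soon as one argument is `1`. -/
def IsAbsorbing (Q : Type u) [LoopStr Q] (n : ℕ) (f : (Fin n → Q) → Q) : Prop :=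
  ∀ u : Fin n → Q, (∃ i, u i = 1) → f u = 1

/-- Every absorbing polynomial operation of arity larger than `k` is constant. -/
def IsSupernilpotent (Q : Type u) [LoopStr Q] (k : ℕ) : Prop :=
  ∀ n, k < n → ∀ f : (Fin n → Q) → Q, IsPoly Q n f → IsAbsorbing Q n f → ∀ u v, f u = f v

open Pool.Agent.H340R3.Loop

theorem ee_eq (c : ℕ) : ee c = Nat.doubleFactorial (2 * c - 1) := by
  induction c with
  | zero => rfl
  | succ c ih =>
    rw [ee, ih]
    rcases c with _ | c
    · rfl
    · rw [show 2 * (c + 1 + 1) - 1 = (2 * (c + 1) - 1) + 2 by omega,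
        Nat.doubleFactorial_add_two, show 2 * (c + 1) - 1 + 2 = 2 * (c + 1) + 1 by omega]

/-- Every loop whose multiplication group is nilpotent of class `c` is
`(2c-1)!!`-supernilpotent. -/
theorem result (Q : Type u) [LoopStr Q] [Group.IsNilpotent (Mlt Q)] :
    IsSupernilpotent Q (Nat.doubleFactorial (2 * Group.nilpotencyClass (Mlt Q) - 1)) := by
  set c := Group.nilpotencyClass (Mlt Q) with hcdef
  have hc : Subgroup.upperCentralSeries (Mlt Q) c = ⊤ :=
    Subgroup.upperCentralSeries_nilpotencyClass
  rw [← ee_eq]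
  let L : Q → Equiv.Perm Q := fun a =>
    ⟨fun x => a * x, fun x => LoopStr.ldiv a x, fun x => LoopStr.ldiv_mul a x,
      fun x => LoopStr.mul_ldiv a x⟩
  let R : Q → Equiv.Perm Q := fun a =>
    ⟨fun x => x * a, fun x => LoopStr.rdiv x a, fun x => LoopStr.mul_rdiv a x,
      fun x => LoopStr.rdiv_mul a x⟩
  let D : LoopData Q (Mlt Q) :=
    { o := 1
      l := fun a => ⟨L a, Subgroup.subset_closure ⟨a, Or.inl fun _ => rfl⟩⟩
      r := fun a => ⟨R a, Subgroup.subset_closure ⟨a, Or.inr fun _ => rfl⟩⟩
      lr := fun x y => rfl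
      lo := fun x => mul_one x
      ro := fun x => one_mul x }
  have hDl : ∀ x y : Q, D.l x • y = x * y := fun x y => rfl
  obtain ⟨F, h0, h1, hbot, hcl⟩ := key c Q (Mlt Q) D hc
  intro n hn f hf hab
  have hQ : ∀ u : Fin n → Q, (fun w : Fin n → Bool => f (fun i => if w i then u i else 1)) ∈
      QC D F n := by
    intro u
    clear hab
    induction hf with
    | var i => exact qc_face (D := D) h0 h1 n i 1 (u i)
    | const q => exact qc_const h0 n q
    | mul f g _ _ ihf ihg => exact qc_mul (hcl n) ihf ihg (fun w => rfl)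
    | ldiv f g _ _ ihf ihg =>
      exact qc_div1 (hcl n) ihf ihg (fun w => LoopStr.mul_ldiv _ _)
    | rdiv f g _ _ ihf ihg =>
      exact qc_div2 (hcl n) ihg ihf (fun w => LoopStr.rdiv_mul _ _)
  have key2 : ∀ u : Fin n → Q, f u = 1 := by
    intro u
    have := qc_absorb (hbot n hn) (hQ u) (by
      intro s hs
      apply hab
      obtain ⟨i, hi⟩ := Function.ne_iff.1 hs
      refine ⟨i, ?_⟩
      have : s i = false := by simpa using hi
      rw [this]
      simp)
    simpa using this
  intro u v
  rw [key2, key2]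

end Pool.Agent.Results.MP_829a29_al.NilpotentMltSupernilpotent
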